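import Pool.Agent.Helper41.NC.Lucas
import Pool.Agent.Helper41.TS.Small

/-!
# Three families of Laurent polynomials
-/

open Finset

namespace Pool.Agent.Helper41.NC

variable {k : Type} [Field k]

/-- the monomial with the exponent `n` and the coefficient `a` -/
noncomputable def mon (n : ℤ × ℤ) (a : k) : Lau k := AddMonoidAlgebra.single n a

/-- `1 - u`, `1 - v`, `1 - t / (u v)` -/
noncomputable def hexagon (t : k) : Fin 3 → Lau k :=
  ![1 - mon (1, 0) 1, 1 - mon (0, 1) 1, 1 - mon (-1, -1) t]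

/-- `1 - u - v`, `1 - t / (u v)` -/
noncomputable def pentagon (t : k) : Fin 2 → Lau k :=
  ![1 - mon (1, 0) 1 - mon (0, 1) 1, 1 - mon (-1, -1) t]

/-- `1 - u - v - t / (u v)` -/
noncomputable def triangle (t : k) : Fin 1 → Lau k :=
  ![1 - mon (1, 0) 1 - mon (0, 1) 1 - mon (-1, -1) t]

theorem bd_mono {l : ℤ × ℤ →+ ℤ} {G : Lau k} {b c : ℤ} (hG : Bd l G b) (h : b ≤ c) : Bd l G c :=
  fun n hn => (hG n hn).trans h

theorem bd_mon (l : ℤ × ℤ →+ ℤ) (n : ℤ × ℤ) (a : k) {b : ℤ} (h : l n ≤ b) : Bd l (mon n a) b := by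
  intro m hm
  have h1 : m = n := by
    by_contra hne
    apply hm
    rw [mon, AddMonoidAlgebra.coeff_single, Finsupp.single_eq_of_ne hne]
  rw [h1]
  exact h

theorem bd_sub {l : ℤ × ℤ →+ ℤ} {G H : Lau k} {b : ℤ} (hG : Bd l G b) (hH : Bd l H b) :
    Bd l (G - H) b := by
  intro n hn
  by_cases h : G.coeff n = 0
  · apply hH n
    intro h'
    apply hn
    rw [AddMonoidAlgebra.coeff_sub, Finsupp.sub_apply, h, h', sub_zero]
  · exact hG n h

/-- four linear forms suffice -/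
theorem sep_of {s : ℕ} {F : Fin s → Lau k} (a b c d : Fin s → ℕ)
    (ha : ∀ j, Bd (AddMonoidHom.fst ℤ ℤ) (F j) (a j)) (hb : ∀ j, Bd (-AddMonoidHom.fst ℤ ℤ) (F j) (b j))
    (hc : ∀ j, Bd (AddMonoidHom.snd ℤ ℤ) (F j) (c j)) (hd : ∀ j, Bd (-AddMonoidHom.snd ℤ ℤ) (F j) (d j))
    (ha' : ∑ j, (a j : ℤ) ≤ 1) (hb' : ∑ j, (b j : ℤ) ≤ 1) (hc' : ∑ j, (c j : ℤ) ≤ 1)
    (hd' : ∑ j, (d j : ℤ) ≤ 1) : Sep F := by
  rintro ⟨x, y⟩ hm
  rcases lt_trichotomy x 0 with h | h | h
  · refine ⟨-AddMonoidHom.fst ℤ ℤ, b, hb, ?_, ?_⟩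
    · change _ ≤ -x
      omega
    · change 0 < -x
      omega
  · rcases lt_trichotomy y 0 with h' | h' | h'
    · refine ⟨-AddMonoidHom.snd ℤ ℤ, d, hd, ?_, ?_⟩
      · change _ ≤ -y
        omega
      · change 0 < -y
        omega
    · exact absurd (by rw [h, h']; rfl) hm
    · refine ⟨AddMonoidHom.snd ℤ ℤ, c, hc, ?_, ?_⟩
      · change _ ≤ y
        omega
      · exact h'
  · refine ⟨AddMonoidHom.fst ℤ ℤ, a, ha, ?_, ?_⟩
    · change _ ≤ x
      omega
    · exact h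

theorem sep_hexagon (t : k) : Sep (hexagon t) := by
  refine sep_of ![1, 0, 0] ![0, 0, 1] ![0, 1, 0] ![0, 0, 1] ?_ ?_ ?_ ?_ ?_ ?_ ?_ ?_
  · intro j
    fin_cases j
    · exact bd_sub (bd_mono (bd_one _) (by simp)) (bd_mon _ _ _ (by simp))
    · exact bd_sub (bd_mono (bd_one _) (by simp)) (bd_mon _ _ _ (by simp))
    · exact bd_sub (bd_mono (bd_one _) (by simp)) (bd_mon _ _ _ (by simp))
  · intro j
    fin_cases j
    · exact bd_sub (bd_mono (bd_one _) (by simp)) (bd_mon _ _ _ (by simp))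
    · exact bd_sub (bd_mono (bd_one _) (by simp)) (bd_mon _ _ _ (by simp))
    · exact bd_sub (bd_mono (bd_one _) (by simp)) (bd_mon _ _ _ (by simp))
  · intro j
    fin_cases j
    · exact bd_sub (bd_mono (bd_one _) (by simp)) (bd_mon _ _ _ (by simp))
    · exact bd_sub (bd_mono (bd_one _) (by simp)) (bd_mon _ _ _ (by simp))
    · exact bd_sub (bd_mono (bd_one _) (by simp)) (bd_mon _ _ _ (by simp))
  · intro j
    fin_cases j
    · exact bd_sub (bd_mono (bd_one _) (by simp)) (bd_mon _ _ _ (by simp))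
    · exact bd_sub (bd_mono (bd_one _) (by simp)) (bd_mon _ _ _ (by simp))
    · exact bd_sub (bd_mono (bd_one _) (by simp)) (bd_mon _ _ _ (by simp))
  all_goals simp [Fin.sum_univ_succ]

theorem sep_pentagon (t : k) : Sep (pentagon t) := by
  refine sep_of ![1, 0] ![0, 1] ![1, 0] ![0, 1] ?_ ?_ ?_ ?_ ?_ ?_ ?_ ?_
  · intro j
    fin_cases j
    · exact bd_sub (bd_sub (bd_mono (bd_one _) (by simp)) (bd_mon _ _ _ (by simp)))
        (bd_mon _ _ _ (by simp))
    · exact bd_sub (bd_mono (bd_one _) (by simp)) (bd_mon _ _ _ (by simp))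
  · intro j
    fin_cases j
    · exact bd_sub (bd_sub (bd_mono (bd_one _) (by simp)) (bd_mon _ _ _ (by simp)))
        (bd_mon _ _ _ (by simp))
    · exact bd_sub (bd_mono (bd_one _) (by simp)) (bd_mon _ _ _ (by simp))
  · intro j
    fin_cases j
    · exact bd_sub (bd_sub (bd_mono (bd_one _) (by simp)) (bd_mon _ _ _ (by simp)))
        (bd_mon _ _ _ (by simp))
    · exact bd_sub (bd_mono (bd_one _) (by simp)) (bd_mon _ _ _ (by simp))
  · intro j
    fin_cases j
    · exact bd_sub (bd_sub (bd_mono (bd_one _) (by simp)) (bd_mon _ _ _ (by simp)))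
        (bd_mon _ _ _ (by simp))
    · exact bd_sub (bd_mono (bd_one _) (by simp)) (bd_mon _ _ _ (by simp))
  all_goals simp [Fin.sum_univ_succ]

theorem sep_triangle (t : k) : Sep (triangle t) := by
  refine sep_of ![1] ![1] ![1] ![1] ?_ ?_ ?_ ?_ ?_ ?_ ?_ ?_
  · intro j
    fin_cases j
    exact bd_sub (bd_sub (bd_sub (bd_mono (bd_one _) (by simp)) (bd_mon _ _ _ (by simp)))
        (bd_mon _ _ _ (by simp))) (bd_mon _ _ _ (by simp))
  · intro j
    fin_cases j
    exact bd_sub (bd_sub (bd_sub (bd_mono (bd_one _) (by simp)) (bd_mon _ _ _ (by simp)))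
        (bd_mon _ _ _ (by simp))) (bd_mon _ _ _ (by simp))
  · intro j
    fin_cases j
    exact bd_sub (bd_sub (bd_sub (bd_mono (bd_one _) (by simp)) (bd_mon _ _ _ (by simp)))
        (bd_mon _ _ _ (by simp))) (bd_mon _ _ _ (by simp))
  · intro j
    fin_cases j
    exact bd_sub (bd_sub (bd_sub (bd_mono (bd_one _) (by simp)) (bd_mon _ _ _ (by simp)))
        (bd_mon _ _ _ (by simp))) (bd_mon _ _ _ (by simp))
  all_goals simp

theorem mon_mul (n m : ℤ × ℤ) (a b : k) : mon n a * mon m b = mon (n + m) (a * b) :=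
  AddMonoidAlgebra.single_mul_single _ _ _ _

theorem one_sub_pow (n : ℤ × ℤ) (c : k) {a N : ℕ} (h : a < N) :
    (1 - mon n c) ^ a = ∑ i ∈ range N, mon (i • n) (((a.choose i : ℕ) : k) * (-c) ^ i) := by
  have h1 : (1 - mon n c) ^ a =
      ∑ i ∈ range (a + 1), mon (i • n) (((a.choose i : ℕ) : k) * (-c) ^ i) := by
    rw [sub_eq_neg_add, add_pow]
    refine sum_congr rfl fun i _ => ?_
    have e : -mon n c = mon n (-c) := by
      rw [mon, mon, AddMonoidAlgebra.single_neg]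
    rw [one_pow, mul_one, e, mon, mon, AddMonoidAlgebra.single_pow, AddMonoidAlgebra.natCast_def,
      AddMonoidAlgebra.single_mul_single, add_zero, mul_comm]
  rw [h1]
  apply sum_subset
  · intro i hi
    rw [mem_range] at hi ⊢
    omega
  · intro i _ hi
    rw [mem_range, not_lt] at hi
    rw [Nat.choose_eq_zero_of_lt (by omega), Nat.cast_zero, zero_mul, mon,
      AddMonoidAlgebra.single_zero]

theorem coeff_mon (n : ℤ × ℤ) (a : k) : (mon n a).coeff 0 = if n = 0 then a else 0 := by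
  rw [mon, AddMonoidAlgebra.coeff_single]
  split_ifs with h
  · rw [h, Finsupp.single_eq_same]
  · rw [Finsupp.single_eq_of_ne (Ne.symm h)]

/-- the constant terms of the first family -/
theorem ct_hexagon (t : k) (A : Fin 3 → ℕ) :
    ct (hexagon t) A = TS.hyp (A 0) (A 1) (A 2) t := by
  classical
  obtain ⟨N, hN⟩ : ∃ N, N = A 0 + A 1 + A 2 + 1 := ⟨_, rfl⟩
  rw [ct, Fin.prod_univ_three]
  change ((1 - mon (1, 0) 1) ^ A 0 * (1 - mon (0, 1) 1) ^ A 1 * (1 - mon (-1, -1) t) ^ A 2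
    : Lau k).coeff 0 = _
  rw [one_sub_pow _ _ (show A 0 < N by omega), one_sub_pow _ _ (show A 1 < N by omega),
    one_sub_pow _ _ (show A 2 < N by omega), sum_mul_sum, sum_mul_sum,
    ← TS.G_eq_hyp (show A 0 < N by omega), TS.G]
  simp only [sum_mul, mon_mul, AddMonoidAlgebra.coeff_sum, Finsupp.finsetSum_apply, coeff_mon]
  refine sum_congr rfl fun i hi => ?_
  have hiff : ∀ x y : ℕ, (i • ((1, 0) : ℤ × ℤ) + y • ((0, 1) : ℤ × ℤ) + x • ((-1, -1) : ℤ × ℤ) = 0) ↔
      x = i ∧ y = i := by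
    intro x y
    have e1 : i • ((1, 0) : ℤ × ℤ) + y • ((0, 1) : ℤ × ℤ) + x • ((-1, -1) : ℤ × ℤ) =
        ((i : ℤ) - x, (y : ℤ) - x) := by
      rw [Prod.smul_mk, Prod.smul_mk, Prod.smul_mk, Prod.mk_add_mk, Prod.mk_add_mk]
      simp only [nsmul_eq_mul]
      congr 1 <;> ring
    rw [e1, Prod.mk_eq_zero]
    omega
  simp only [hiff]
  rw [sum_eq_single i, sum_eq_single i, if_pos ⟨rfl, rfl⟩]
  · have h3 : ((-1 : k) ^ i) * (-1) ^ i = 1 := by rw [← mul_pow]; simp
    push_cast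
    linear_combination (((A 0).choose i : k) * ((A 1).choose i : k) * ((A 2).choose i : k) *
      (-t) ^ i) * h3
  · intro y _ hy
    rw [if_neg fun h => hy h.2]
  · intro h
    exact absurd hi h
  · intro x _ hx
    exact sum_eq_zero fun y _ => if_neg fun h => hx h.1
  · intro h
    exact absurd hi h

theorem ct_pentagon {t : k} {A : Fin 2 → ℕ} (hA : ∀ j, A j < 2) :
    ct (pentagon t) A ≠ 0 := by
  have h0 := hA 0
  have h1 := hA 1
  rw [ct, Fin.prod_univ_two]
  change ((1 - mon (1, 0) 1 - mon (0, 1) 1) ^ A 0 * (1 - mon (-1, -1) t) ^ A 1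
    : Lau k).coeff 0 ≠ 0
  generalize A 0 = a at h0 ⊢
  generalize A 1 = b at h1 ⊢
  interval_cases a <;> interval_cases b <;>
    simp [mon, mul_sub, sub_mul, AddMonoidAlgebra.one_def, AddMonoidAlgebra.coeff_sub,
      AddMonoidAlgebra.coeff_single, Finsupp.single_apply]

theorem ct_triangle {t : k} {A : Fin 1 → ℕ} (hA : ∀ j, A j < 3) :
    ct (triangle t) A ≠ 0 := by
  have h0 := hA 0
  rw [ct, Fin.prod_univ_one]
  change ((1 - mon (1, 0) 1 - mon (0, 1) 1 - mon (-1, -1) t) ^ A 0 : Lau k).coeff 0 ≠ 0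
  generalize A 0 = a at h0 ⊢
  interval_cases a <;>
    simp [mon, sq, mul_sub, sub_mul, AddMonoidAlgebra.one_def, AddMonoidAlgebra.coeff_sub,
      AddMonoidAlgebra.coeff_single, Finsupp.single_apply]

end Pool.Agent.Helper41.NC
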