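import Mathlib

/-!
# Faithful characters of the multiplicative group of a finite field
-/

namespace Pool.Agent.Helper41.NC

theorem exists_tau (L K : Type) [Field L] [CharZero L] [IsAlgClosed L] [Field K] [Fintype K] :
    ∃ τ : Kˣ →* Lˣ, Function.Injective τ := by
  classical
  obtain ⟨g, hg⟩ := IsCyclic.exists_generator (α := Kˣ)
  set n := Fintype.card Kˣ with hn
  have hnpos : 0 < n := Fintype.card_pos
  have hordg : orderOf g = n := (orderOf_eq_card_of_forall_mem_zpowers hg).trans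
    Nat.card_eq_fintype_card
  have : NeZero (n : L) := ⟨Nat.cast_ne_zero.2 hnpos.ne'⟩
  obtain ⟨ζ, hζ⟩ := HasEnoughRootsOfUnity.exists_primitiveRoot L n
  obtain ⟨η, hη⟩ : ∃ η : Lˣ, (η : L) = ζ := ⟨hζ.isUnit hnpos.ne' |>.unit, rfl⟩
  have hη' : IsPrimitiveRoot η n := IsPrimitiveRoot.coe_units_iff.1 (by rw [hη]; exact hζ)
  have hordη : orderOf η = n := hη'.eq_orderOf.symm
  let τ : Kˣ →* Lˣ := monoidHomOfForallMemZpowers hg (g' := η) (by rw [hordη, hordg])
  have hτ : τ g = η := monoidHomOfForallMemZpowers_apply_gen hg _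
  refine ⟨τ, ?_⟩
  rw [injective_iff_map_eq_one]
  intro t ht
  obtain ⟨j, rfl⟩ := Subgroup.mem_zpowers_iff.1 (hg t)
  rw [map_zpow, hτ] at ht
  have h1 := orderOf_dvd_iff_zpow_eq_one.2 ht
  rw [hordη, ← hordg] at h1
  exact orderOf_dvd_iff_zpow_eq_one.1 h1

end Pool.Agent.Helper41.NC
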