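import Pool.Agent.Helper41.NC.Ex

/-!
# Families with a parameter: all but finitely many parameters are generic
-/

open Finset Polynomial

namespace Pool.Agent.Helper41.NC

/-- the Laurent polynomials `G j + t H j` with `G j` and `H j` over the integers -/
noncomputable def lin {R : Type} [CommRing R] {s : ℕ} (G H : Fin s → AddMonoidAlgebra ℤ (ℤ × ℤ))
    (t : R) : Fin s → AddMonoidAlgebra R (ℤ × ℤ) := fun j =>
  AddMonoidAlgebra.mapRingHom _ (Int.castRingHom R) (G j) +
    AddMonoidAlgebra.single 0 t * AddMonoidAlgebra.mapRingHom _ (Int.castRingHom R) (H j)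

/-- the constant term over a ring -/
noncomputable def ctR {R : Type} [CommRing R] {s : ℕ} (F : Fin s → AddMonoidAlgebra R (ℤ × ℤ))
    (A : Fin s → ℕ) : R := (∏ j, F j ^ A j).coeff 0

theorem map_lin {R S : Type} [CommRing R] [CommRing S] (f : R →+* S) {s : ℕ}
    (G H : Fin s → AddMonoidAlgebra ℤ (ℤ × ℤ)) (t : R) (j : Fin s) :
    AddMonoidAlgebra.mapRingHom _ f (lin G H t j) = lin G H (f t) j := by
  have h1 : ∀ x : AddMonoidAlgebra ℤ (ℤ × ℤ),
      AddMonoidAlgebra.mapRingHom (ℤ × ℤ) f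
        (AddMonoidAlgebra.mapRingHom (ℤ × ℤ) (Int.castRingHom R) x) =
      AddMonoidAlgebra.mapRingHom (ℤ × ℤ) (Int.castRingHom S) x := by
    intro x
    rw [← RingHom.comp_apply, ← AddMonoidAlgebra.mapRingHom_comp]
    congr 2
    exact RingHom.ext_int _ _
  rw [lin, lin, map_add, map_mul, h1, h1, AddMonoidAlgebra.mapRingHom_single]

theorem map_ctR {R S : Type} [CommRing R] [CommRing S] (f : R →+* S) {s : ℕ}
    (G H : Fin s → AddMonoidAlgebra ℤ (ℤ × ℤ)) (t : R) (A : Fin s → ℕ) :
    f (ctR (lin G H t) A) = ctR (lin G H (f t)) A := by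
  rw [ctR, ctR, ← AddMonoidAlgebra.coeff_mapRingHom, map_prod]
  simp only [map_pow, map_lin]

/-- the support lies in a strictly convex cone and the constant term is `1` -/
def Low (x : AddMonoidAlgebra ℤ (ℤ × ℤ)) : Prop :=
  x.coeff 0 = 1 ∧ ∀ n, x.coeff n ≠ 0 → n = 0 ∨ 0 < n.1 + n.2

theorem low_mul {x y : AddMonoidAlgebra ℤ (ℤ × ℤ)} (hx : Low x) (hy : Low y) : Low (x * y) := by
  classical
  constructor
  · rw [AddMonoidAlgebra.coeff_mul, Finsupp.sum]
    rw [Finset.sum_eq_single 0]
    · rw [Finsupp.sum, Finset.sum_eq_single 0]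
      · rw [add_zero, if_pos rfl, hx.1, hy.1, mul_one]
      · intro n _ hn
        rw [zero_add, if_neg hn]
      · intro h
        rw [Finsupp.notMem_support_iff, hy.1] at h
        exact absurd h one_ne_zero
    · intro n hn hn0
      rw [Finsupp.sum]
      refine Finset.sum_eq_zero fun m hm => ?_
      rw [if_neg]
      intro h
      have h1 := (hx.2 n (Finsupp.mem_support_iff.1 hn)).resolve_left hn0
      have h2 : n.1 + m.1 = 0 := by rw [← Prod.fst_add, h]; rfl
      have h3 : n.2 + m.2 = 0 := by rw [← Prod.snd_add, h]; rfl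
      rcases hy.2 m (Finsupp.mem_support_iff.1 hm) with h4 | h4
      · rw [h4, Prod.fst_zero] at h2
        rw [h4, Prod.snd_zero] at h3
        omega
      · omega
    · intro h
      rw [Finsupp.notMem_support_iff, hx.1] at h
      exact absurd h one_ne_zero
  · intro n hn
    rw [AddMonoidAlgebra.coeff_mul, Finsupp.sum] at hn
    obtain ⟨n₁, h₁, hn₁⟩ := exists_ne_zero_of_sum_ne_zero hn
    rw [Finsupp.sum] at hn₁
    obtain ⟨n₂, h₂, hn₂⟩ := exists_ne_zero_of_sum_ne_zero hn₁
    have h3 : n₁ + n₂ = n := by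
      by_contra h
      rw [if_neg h] at hn₂
      exact hn₂ rfl
    rcases hx.2 n₁ (Finsupp.mem_support_iff.1 h₁) with h4 | h4 <;>
      rcases hy.2 n₂ (Finsupp.mem_support_iff.1 h₂) with h5 | h5
    · left
      rw [← h3, h4, h5, add_zero]
    · right
      rw [← h3, h4, zero_add]
      exact h5
    · right
      rw [← h3, h5, add_zero]
      exact h4
    · right
      rw [← h3, Prod.fst_add, Prod.snd_add]
      omega

theorem low_one : Low 1 := by
  classical
  refine ⟨AddMonoidAlgebra.coeff_one_zero, fun n hn => Or.inl ?_⟩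
  by_contra h
  apply hn
  rw [AddMonoidAlgebra.one_def, AddMonoidAlgebra.coeff_single, Finsupp.single_eq_of_ne h]

theorem low_pow {x : AddMonoidAlgebra ℤ (ℤ × ℤ)} (hx : Low x) (N : ℕ) : Low (x ^ N) := by
  induction N with
  | zero => rw [pow_zero]; exact low_one
  | succ N ih => rw [pow_succ]; exact low_mul ih hx

theorem low_prod {s : ℕ} {x : Fin s → AddMonoidAlgebra ℤ (ℤ × ℤ)} (hx : ∀ j, Low (x j)) :
    Low (∏ j, x j) := by
  classical
  refine Finset.prod_induction x Low (fun _ _ => low_mul) low_one fun j _ => hx j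

theorem low_sub {x : AddMonoidAlgebra ℤ (ℤ × ℤ)} (hx : Low x) {n : ℤ × ℤ} (hn : 0 < n.1 + n.2) :
    Low (x - AddMonoidAlgebra.single n 1) := by
  classical
  have h0 : n ≠ 0 := by
    rintro rfl
    exact lt_irrefl _ hn
  constructor
  · rw [AddMonoidAlgebra.coeff_sub, Finsupp.sub_apply, hx.1, AddMonoidAlgebra.coeff_single,
      Finsupp.single_eq_of_ne (Ne.symm h0), sub_zero]
  · intro m hm
    by_cases h : m = n
    · right
      rw [h]
      exact hn
    · apply hx.2
      rwa [AddMonoidAlgebra.coeff_sub, Finsupp.sub_apply, AddMonoidAlgebra.coeff_single,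
        Finsupp.single_eq_of_ne h, sub_zero] at hm

/-- all but finitely many parameters are generic -/
theorem exists_finite {s : ℕ} (G H : Fin s → AddMonoidAlgebra ℤ (ℤ × ℤ)) (hG : ∀ j, Low (G j))
    (p : ℕ) (Ω : Type) [Field Ω] : ∃ Z : Finset Ω, ∀ (k : Type) [Field k] (ι : k →+* Ω) (t : k),
      ι t ∉ Z → ∀ A : Fin s → ℕ, (∀ j, A j < p) → ctR (lin G H t) A ≠ 0 := by
  classical
  let P : (Fin s → ℕ) → Polynomial Ω := fun A => ctR (lin G H (X : Polynomial Ω)) A
  have hP : ∀ A t, (P A).eval t = ctR (lin G H t) A := by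
    intro A t
    have h := map_ctR (evalRingHom t) G H X A
    rw [coe_evalRingHom, eval_X] at h
    exact h
  have h0 : ∀ A, P A ≠ 0 := by
    intro A h
    have h1 := hP A 0
    have h2 := map_ctR (Int.castRingHom Ω) G H 0 A
    rw [map_zero, ← h1, h, eval_zero] at h2
    have h3 : ctR (lin G H (0 : ℤ)) A = 1 := by
      rw [ctR]
      have e : ∀ j, lin G H (0 : ℤ) j = G j := by
        intro j
        have e1 : Int.castRingHom ℤ = RingHom.id ℤ := RingHom.ext_int _ _
        rw [lin, AddMonoidAlgebra.single_zero, zero_mul, add_zero, e1,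
          AddMonoidAlgebra.mapRingHom_id, RingHom.id_apply]
      simp only [e]
      exact (low_prod fun j => low_pow (hG j) (A j)).1
    rw [h3, map_one] at h2
    exact one_ne_zero h2
  refine ⟨(Fintype.piFinset fun _ : Fin s => range p).biUnion fun A => (P A).roots.toFinset,
    fun k _ ι t ht A hA hct => ht ?_⟩
  rw [mem_biUnion]
  refine ⟨A, Fintype.mem_piFinset.2 fun j => mem_range.2 (hA j), ?_⟩
  rw [Multiset.mem_toFinset, mem_roots (h0 A), IsRoot.def, hP, ← map_ctR ι, hct, map_zero]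

variable {k : Type} [Field k]

theorem hexagon_eq (t : k) : hexagon t = lin ![1 - AddMonoidAlgebra.single (1, 0) 1,
    1 - AddMonoidAlgebra.single (0, 1) 1, 1] ![0, 0, - AddMonoidAlgebra.single (-1, -1) 1] t := by
  funext j
  fin_cases j
  · simp [hexagon, lin, mon]
  · simp [hexagon, lin, mon]
  · simp [hexagon, lin, mon, AddMonoidAlgebra.single_mul_single, sub_eq_add_neg]

theorem pentagon_eq (t : k) : pentagon t = lin ![1 - AddMonoidAlgebra.single (1, 0) 1 -
    AddMonoidAlgebra.single (0, 1) 1, 1] ![0, - AddMonoidAlgebra.single (-1, -1) 1] t := by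
  funext j
  fin_cases j
  · simp [pentagon, lin, mon]
  · simp [pentagon, lin, mon, AddMonoidAlgebra.single_mul_single, sub_eq_add_neg]

theorem triangle_eq (t : k) : triangle t = lin ![1 - AddMonoidAlgebra.single (1, 0) 1 -
    AddMonoidAlgebra.single (0, 1) 1] ![- AddMonoidAlgebra.single (-1, -1) 1] t := by
  funext j
  fin_cases j
  simp [triangle, lin, mon, AddMonoidAlgebra.single_mul_single, sub_eq_add_neg]

/-- the three families for all but finitely many parameters -/
theorem exists_exceptions (p : ℕ) (Ω : Type) [Field Ω] : ∃ Z : Finset Ω,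
    ∀ (k : Type) [Field k] (ι : k →+* Ω) (t : k), ι t ∉ Z →
      (∀ A : Fin 3 → ℕ, (∀ j, A j < p) → ct (hexagon t) A ≠ 0) ∧
      (∀ A : Fin 2 → ℕ, (∀ j, A j < p) → ct (pentagon t) A ≠ 0) ∧
      (∀ A : Fin 1 → ℕ, (∀ j, A j < p) → ct (triangle t) A ≠ 0) := by
  classical
  obtain ⟨Z₁, h₁⟩ := exists_finite ![1 - AddMonoidAlgebra.single (1, 0) 1,
    1 - AddMonoidAlgebra.single (0, 1) 1, 1] ![0, 0, - AddMonoidAlgebra.single (-1, -1) 1] (by
      intro j
      fin_cases j
      · exact low_sub low_one (by simp)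
      · exact low_sub low_one (by simp)
      · exact low_one) p Ω
  obtain ⟨Z₂, h₂⟩ := exists_finite ![1 - AddMonoidAlgebra.single (1, 0) 1 -
    AddMonoidAlgebra.single (0, 1) 1, 1] ![0, - AddMonoidAlgebra.single (-1, -1) 1] (by
      intro j
      fin_cases j
      · exact low_sub (low_sub low_one (by simp)) (by simp)
      · exact low_one) p Ω
  obtain ⟨Z₃, h₃⟩ := exists_finite ![1 - AddMonoidAlgebra.single (1, 0) 1 -
    AddMonoidAlgebra.single (0, 1) 1] ![- AddMonoidAlgebra.single (-1, -1) 1] (by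
      intro j
      fin_cases j
      exact low_sub (low_sub low_one (by simp)) (by simp)) p Ω
  refine ⟨Z₁ ∪ Z₂ ∪ Z₃, fun k _ ι t ht => ?_⟩
  rw [mem_union, mem_union, not_or, not_or] at ht
  refine ⟨fun A hA => ?_, fun A hA => ?_, fun A hA => ?_⟩
  · rw [hexagon_eq]
    exact h₁ k ι t ht.1.1 A hA
  · rw [pentagon_eq]
    exact h₂ k ι t ht.1.2 A hA
  · rw [triangle_eq]
    exact h₃ k ι t ht.2 A hA

end Pool.Agent.Helper41.NC
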