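import Mathlib

/-!
# Constant terms of products of powers of Laurent polynomials modulo `p`
-/

open Finset

namespace Pool.Agent.Helper41.NC

/-- Laurent polynomials in two variables -/
abbrev Lau (k : Type) [Field k] : Type := AddMonoidAlgebra k (ℤ × ℤ)

section

variable {k : Type} [Field k] {s : ℕ}

/-- the constant term of the product of the powers with the exponents `A` -/
noncomputable def ct (F : Fin s → Lau k) (A : Fin s → ℕ) : k := (∏ j, F j ^ A j).coeff 0

/-- Every lattice point `m ≠ 0` is separated from the interior of the Minkowski sum of the convex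
hulls of the supports and `0`: a linear form is at most `h j` on `0` and the support of `F j`, and
it is positive and at least the sum of the `h j` at `m`. -/
def Sep (F : Fin s → Lau k) : Prop :=
  ∀ m : ℤ × ℤ, m ≠ 0 → ∃ (l : ℤ × ℤ →+ ℤ) (h : Fin s → ℕ),
    (∀ j n, (F j).coeff n ≠ 0 → l n ≤ h j) ∧ ∑ j, (h j : ℤ) ≤ l m ∧ 0 < l m

/-- a bound for a linear form on the support -/
def Bd (l : ℤ × ℤ →+ ℤ) (G : Lau k) (b : ℤ) : Prop := ∀ n, G.coeff n ≠ 0 → l n ≤ b

theorem bd_one (l : ℤ × ℤ →+ ℤ) : Bd l (1 : Lau k) 0 := by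
  intro n hn
  by_contra h
  apply hn
  have hn0 : n ≠ 0 := by
    rintro rfl
    rw [map_zero] at h
    exact h le_rfl
  rw [AddMonoidAlgebra.one_def, AddMonoidAlgebra.coeff_single, Finsupp.single_eq_of_ne hn0]

theorem bd_mul {l : ℤ × ℤ →+ ℤ} {G H : Lau k} {b c : ℤ} (hG : Bd l G b) (hH : Bd l H c) :
    Bd l (G * H) (b + c) := by
  classical
  intro n hn
  rw [AddMonoidAlgebra.coeff_mul, Finsupp.sum] at hn
  obtain ⟨n₁, h₁, hn₁⟩ := exists_ne_zero_of_sum_ne_zero hn
  rw [Finsupp.sum] at hn₁
  obtain ⟨n₂, h₂, hn₂⟩ := exists_ne_zero_of_sum_ne_zero hn₁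
  have h3 : n₁ + n₂ = n := by
    by_contra h
    rw [if_neg h] at hn₂
    exact hn₂ rfl
  rw [← h3, map_add]
  exact add_le_add (hG n₁ (Finsupp.mem_support_iff.1 h₁)) (hH n₂ (Finsupp.mem_support_iff.1 h₂))

theorem bd_pow {l : ℤ × ℤ →+ ℤ} {G : Lau k} {b : ℤ} (hG : Bd l G b) (N : ℕ) :
    Bd l (G ^ N) (N * b) := by
  induction N with
  | zero =>
    rw [pow_zero, Nat.cast_zero, zero_mul]
    exact bd_one l
  | succ N ih =>
    have e : ((N + 1 : ℕ) : ℤ) * b = N * b + b := by push_cast; ring
    rw [pow_succ, e]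
    exact bd_mul ih hG

theorem bd_prod {l : ℤ × ℤ →+ ℤ} {G : Fin s → Lau k} {b : Fin s → ℤ} (hG : ∀ j, Bd l (G j) (b j))
    (S : Finset (Fin s)) : Bd l (∏ j ∈ S, G j) (∑ j ∈ S, b j) := by
  classical
  induction S using Finset.induction_on with
  | empty =>
    rw [prod_empty, sum_empty]
    exact bd_one l
  | insert a S ha ih =>
    rw [prod_insert ha, sum_insert ha]
    exact bd_mul (hG a) ih

/-- the product of small powers has no monomials in a large multiple of the lattice but the
constant one -/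
theorem coeff_eq_zero {F : Fin s → Lau k} (hF : Sep F) {N : ℕ} (hN : 0 < N) {A : Fin s → ℕ}
    (hA : ∀ j, A j < N) {m : ℤ × ℤ} (hm : m ≠ 0) : (∏ j, F j ^ A j).coeff ((N : ℤ) • m) = 0 := by
  by_contra hne
  obtain ⟨l, h, h1, h2, h3⟩ := hF m hm
  have h4 := bd_prod (l := l) (G := fun j => F j ^ A j) (b := fun j => (A j : ℤ) * h j)
    (fun j => bd_pow (h1 j) (A j)) univ _ hne
  rw [map_zsmul, smul_eq_mul] at h4
  have h5 : ∑ j, (A j : ℤ) * h j ≤ ∑ j, ((N : ℤ) - 1) * h j := by
    refine sum_le_sum fun j _ => mul_le_mul_of_nonneg_right ?_ (by positivity)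
    have := hA j
    omega
  rw [← mul_sum] at h5
  have h6 : ((N : ℤ) - 1) * ∑ j, (h j : ℤ) ≤ ((N : ℤ) - 1) * l m :=
    mul_le_mul_of_nonneg_left h2 (by omega)
  nlinarith

variable {p : ℕ} [Fact p.Prime] [CharP k p]

theorem coeff_mul_pow {G : Lau k} (hG : ∀ m : ℤ × ℤ, m ≠ 0 → G.coeff ((p : ℤ) • m) = 0)
    (H : Lau k) : (G * H ^ p).coeff 0 = G.coeff 0 * H.coeff 0 ^ p := by
  have hch : CharP (Lau k) p :=
    charP_of_injective_ringHom (algebraMap k (Lau k)).injective p
  have hp : 0 < p := (Fact.out : p.Prime).pos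
  induction H using AddMonoidAlgebra.induction_linear with
  | zero => simp [hp.ne']
  | add H₁ H₂ h₁ h₂ =>
    rw [add_pow_char, mul_add, AddMonoidAlgebra.coeff_add, Finsupp.add_apply, h₁, h₂,
      AddMonoidAlgebra.coeff_add, Finsupp.add_apply, add_pow_char, mul_add]
  | single m a =>
    rw [AddMonoidAlgebra.single_pow]
    by_cases hm : m = 0
    · subst hm
      rw [smul_zero, AddMonoidAlgebra.coeff_mul_single_zero]
      simp
    · have h1 : (G * AddMonoidAlgebra.single (p • m) (a ^ p)).coeff 0 =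
          G.coeff (-(p • m)) * a ^ p := by
        refine AddMonoidAlgebra.coeff_mul_single_eq_coeff_mul _ fun m' _ => ?_
        rw [eq_neg_iff_add_eq_zero]
      have h2 : -(p • m) = (p : ℤ) • (-m) := by
        rw [smul_neg, natCast_zsmul]
      rw [h1, h2, hG (-m) (neg_ne_zero.2 hm), zero_mul, AddMonoidAlgebra.coeff_single,
        Finsupp.single_eq_of_ne (Ne.symm hm), zero_pow hp.ne', mul_zero]

/-- the first digits -/
theorem ct_mul {F : Fin s → Lau k} (hF : Sep F) (A : Fin s → ℕ) :
    ct F A = ct F (fun j => A j % p) * ct F (fun j => A j / p) ^ p := by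
  have hp : 0 < p := (Fact.out : p.Prime).pos
  unfold ct
  rw [← coeff_mul_pow (p := p) (G := ∏ j, F j ^ (A j % p)) (fun m hm =>
    coeff_eq_zero hF hp (fun j => Nat.mod_lt _ hp) hm)]
  congr 2
  rw [← prod_pow, ← prod_mul_distrib]
  refine prod_congr rfl fun j _ => ?_
  rw [← pow_mul, ← pow_add, mul_comm (A j / p) p, Nat.mod_add_div]

omit [Fact p.Prime] [CharP k p] in
theorem ct_zero (F : Fin s → Lau k) : ct F (fun _ => 0) = 1 := by
  simp [ct]

/-- concatenation of digits -/
theorem ct_concat {F : Fin s → Lau k} (hF : Sep F) (M : ℕ) {A : Fin s → ℕ}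
    (hA : ∀ j, A j < p ^ M) (A' : Fin s → ℕ) :
    ct F (fun j => A j + p ^ M * A' j) = ct F A * ct F A' ^ p ^ M := by
  have hp : 0 < p := (Fact.out : p.Prime).pos
  induction M generalizing A with
  | zero =>
    have h1 : A = fun _ => 0 := by
      funext j
      have := hA j
      rw [pow_zero] at this
      omega
    subst h1
    rw [ct_zero, pow_zero]
    simp
  | succ M ih =>
    have h2 : ∀ x x' : ℕ, (x + p ^ (M + 1) * x') % p = x % p := by
      intro x x'
      rw [pow_succ', mul_assoc, Nat.add_mul_mod_self_left]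
    have h3 : ∀ x x' : ℕ, (x + p ^ (M + 1) * x') / p = x / p + p ^ M * x' := by
      intro x x'
      rw [pow_succ', mul_assoc, Nat.add_mul_div_left _ _ hp]
    have h4 : ∀ x, x < p ^ (M + 1) → x / p < p ^ M := by
      intro x hx
      rw [pow_succ] at hx
      exact (Nat.div_lt_iff_lt_mul hp).2 hx
    rw [ct_mul (p := p) hF]
    simp only [h2, h3]
    rw [ih (fun j => h4 _ (hA j)), mul_pow, ← pow_mul, ← pow_succ, ← mul_assoc, ← ct_mul hF]

/-- nonvanishing if the constant terms for the digits do not vanish -/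
theorem ct_ne_zero {F : Fin s → Lau k} (hF : Sep F) (M : ℕ) {A : Fin s → ℕ}
    (hA : ∀ j, A j < p ^ M) (hg : ∀ i < M, ct F (fun j => A j / p ^ i % p) ≠ 0) :
    ct F A ≠ 0 := by
  have hp : 0 < p := (Fact.out : p.Prime).pos
  induction M generalizing A with
  | zero =>
    have h1 : A = fun _ => 0 := by
      funext j
      have := hA j
      rw [pow_zero] at this
      omega
    subst h1
    rw [ct_zero]
    exact one_ne_zero
  | succ M ih =>
    rw [ct_mul (p := p) hF]
    refine mul_ne_zero ?_ (pow_ne_zero _ ?_)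
    · have := hg 0 (by omega)
      simpa using this
    · apply ih
      · intro j
        have := hA j
        rw [pow_succ] at this
        exact (Nat.div_lt_iff_lt_mul hp).2 this
      · intro i hi
        have := hg (i + 1) (by omega)
        simpa only [pow_succ', ← Nat.div_div_eq_div_mul] using this

end

end Pool.Agent.Helper41.NC
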