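import Pool.Agent.Helper41.NC.Lucas

/-!
# The sum of the values of a Laurent polynomial over the points of the torus
-/

open Finset

namespace Pool.Agent.Helper41.NC

/-- the value of the Laurent polynomial `F` at the point `(u, v)` -/
noncomputable def value {k K : Type} [Field k] [Field K] [Algebra k K] (F : Lau k) (P : Kˣ × Kˣ) :
    K :=
  F.coeff.sum fun n a => algebraMap k K a * ((P.1 ^ n.1 * P.2 ^ n.2 : Kˣ) : K)

section

variable {k K : Type} [Field k] [Field K] [Algebra k K]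

/-- the values of the monomials -/
def monom (P : Kˣ × Kˣ) : Multiplicative (ℤ × ℤ) →* K where
  toFun n := ((P.1 ^ n.toAdd.1 * P.2 ^ n.toAdd.2 : Kˣ) : K)
  map_one' := by simp
  map_mul' a b := by
    rw [← Units.val_mul]
    congr 1
    rw [toAdd_mul, Prod.fst_add, Prod.snd_add, zpow_add, zpow_add]
    exact mul_mul_mul_comm _ _ _ _

theorem value_eq (F : Lau k) (P : Kˣ × Kˣ) :
    value F P = AddMonoidAlgebra.lift k K (ℤ × ℤ) (monom P) F := by
  rw [AddMonoidAlgebra.lift_apply']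
  rfl

theorem value_prod {s : ℕ} (F : Fin s → Lau k) (A : Fin s → ℕ) (P : Kˣ × Kˣ) :
    ∏ j, value (F j) P ^ A j = value (∏ j, F j ^ A j) P := by
  simp only [value_eq, map_prod, map_pow]

variable [Fintype K] [DecidableEq K]

theorem sum_zpow (n : ℤ) :
    ∑ u : Kˣ, ((u ^ n : Kˣ) : K) = if ((Fintype.card K - 1 : ℕ) : ℤ) ∣ n then -1 else 0 := by
  have hq : 1 < Fintype.card K := Fintype.one_lt_card
  have hq0 : ((Fintype.card K - 1 : ℕ) : ℤ) ≠ 0 := by
    have : Fintype.card K - 1 ≠ 0 := by omega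
    exact_mod_cast this
  obtain ⟨i, hi⟩ : ∃ i : ℕ, (i : ℤ) = n % ((Fintype.card K - 1 : ℕ) : ℤ) :=
    ⟨(n % ((Fintype.card K - 1 : ℕ) : ℤ)).toNat, Int.toNat_of_nonneg (Int.emod_nonneg _ hq0)⟩
  have h1 : ∀ u : Kˣ, ((u ^ n : Kˣ) : K) = (u : K) ^ i := by
    intro u
    have h2 : u ^ (((Fintype.card K - 1 : ℕ) : ℤ)) = 1 := by
      rw [zpow_natCast, ← Fintype.card_units]
      exact pow_card_eq_one
    have h3 : u ^ n = u ^ (i : ℤ) := by
      have h4 := Int.emod_add_mul_ediv n ((Fintype.card K - 1 : ℕ) : ℤ)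
      rw [← h4, zpow_add, zpow_mul, h2, one_zpow, mul_one, hi]
    rw [h3, zpow_natCast, Units.val_pow_eq_pow_val]
  rw [sum_congr rfl fun u _ => h1 u, FiniteField.sum_pow_units]
  have h2 : Fintype.card K - 1 ∣ i ↔ ((Fintype.card K - 1 : ℕ) : ℤ) ∣ n := by
    rw [← Int.natCast_dvd_natCast, hi]
    exact (Int.dvd_iff_emod_eq_zero ..).trans ((by rw [Int.emod_emod_of_dvd _ dvd_rfl]) :
      _ ↔ n % ((Fintype.card K - 1 : ℕ) : ℤ) = 0) |>.trans (Int.dvd_iff_emod_eq_zero ..).symm
  by_cases h : ((Fintype.card K - 1 : ℕ) : ℤ) ∣ n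
  · rw [if_pos h, if_pos (h2.2 h)]
  · rw [if_neg h, if_neg (fun h' => h (h2.1 h'))]

/-- the sum over the points of the torus is the constant term -/
theorem sum_value {G : Lau k}
    (hG : ∀ m : ℤ × ℤ, m ≠ 0 → G.coeff (((Fintype.card K - 1 : ℕ) : ℤ) • m) = 0) :
    ∑ P : Kˣ × Kˣ, value G P = algebraMap k K (G.coeff 0) := by
  have h1 : ∀ P : Kˣ × Kˣ, value G P = ∑ n ∈ G.coeff.support,
      algebraMap k K (G.coeff n) * (((P.1 ^ n.1 : Kˣ) : K) * ((P.2 ^ n.2 : Kˣ) : K)) := by
    intro P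
    rw [value, Finsupp.sum]
    refine sum_congr rfl fun n _ => ?_
    rw [Units.val_mul]
  rw [sum_congr rfl fun P _ => h1 P, sum_comm]
  have h2 : ∀ n ∈ G.coeff.support, ∑ P : Kˣ × Kˣ, algebraMap k K (G.coeff n) *
      (((P.1 ^ n.1 : Kˣ) : K) * ((P.2 ^ n.2 : Kˣ) : K)) =
      if n = 0 then algebraMap k K (G.coeff n) else 0 := by
    intro n hn
    rw [← mul_sum, Fintype.sum_prod_type]
    simp only
    rw [← Fintype.sum_mul_sum, sum_zpow, sum_zpow]
    by_cases h0 : n = 0
    · subst h0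
      simp
    · rw [if_neg h0]
      by_cases ha : ((Fintype.card K - 1 : ℕ) : ℤ) ∣ n.1
      · by_cases hb : ((Fintype.card K - 1 : ℕ) : ℤ) ∣ n.2
        · exfalso
          obtain ⟨a, ha⟩ := ha
          obtain ⟨b, hb⟩ := hb
          have hn2 : n = ((Fintype.card K - 1 : ℕ) : ℤ) • ((a, b) : ℤ × ℤ) := by
            ext
            · simp [ha]
            · simp [hb]
          have hab : ((a, b) : ℤ × ℤ) ≠ 0 := by
            intro h
            apply h0
            rw [hn2, h, smul_zero]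
          have h3 := hG (a, b) hab
          rw [← hn2] at h3
          exact (Finsupp.mem_support_iff.1 hn) h3
        · rw [if_neg hb, mul_zero, mul_zero]
      · rw [if_neg ha, zero_mul, mul_zero]
  rw [sum_congr rfl h2, Finset.sum_ite_eq']
  split_ifs with h
  · rfl
  · rw [Finsupp.notMem_support_iff.1 h, map_zero]

/-- the sum of the products of the powers -/
theorem sum_points {s : ℕ} {F : Fin s → Lau k} (hF : Sep F) {A : Fin s → ℕ}
    (hA : ∀ j, A j < Fintype.card K - 1) :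
    ∑ P : Kˣ × Kˣ, ∏ j, value (F j) P ^ A j = algebraMap k K (ct F A) := by
  have hq : 1 < Fintype.card K := Fintype.one_lt_card
  rw [sum_congr rfl fun P _ => value_prod F A P]
  exact sum_value fun m hm => coeff_eq_zero hF (by omega) hA hm

end

end Pool.Agent.Helper41.NC
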