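import Pool.Agent.Helper41.TS.Resid
import Pool.Agent.Helper41.NC.Sums

/-!
# The residues of the sums of characters over the points of the torus
-/

open Module

namespace Pool.Agent.Helper41.NC

open Pool.Agent.Helper73.KT Pool.Agent.Helper73.HD Pool.Agent.Helper41.TS

theorem int_prod {L : Type} [Field L] {σ : Type*} (S : Finset σ) (f : σ → L)
    (hf : ∀ i ∈ S, IsIntegral ℤ (f i)) : IsIntegral ℤ (∏ i ∈ S, f i) :=
  IsIntegral.prod f hf

theorem res_prod {L κ : Type} [Field L] [Field κ] (φ : integralClosure ℤ L →+* κ) {σ : Type*}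
    (S : Finset σ) (f : σ → L) (hf : ∀ i ∈ S, IsIntegral ℤ (f i)) :
    res φ (∏ i ∈ S, f i) = ∏ i ∈ S, res φ (f i) := by
  classical
  revert hf
  induction S using Finset.induction_on with
  | empty =>
    intro _
    rw [Finset.prod_empty, Finset.prod_empty]
    simpa using res_natCast φ 1
  | insert a S ha ih =>
    intro hf
    have h1 : ∀ i ∈ S, IsIntegral ℤ (f i) := fun i hi => hf i (Finset.mem_insert_of_mem hi)
    rw [Finset.prod_insert ha, Finset.prod_insert ha,
      res_mul φ (hf a (Finset.mem_insert_self a S)) (int_prod S f h1), ih h1]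

section sums

variable {k L κ K₀ K : Type} [Field k] [Field L] [Field κ] [Field K₀] [Fintype K₀] [Field K]
    [Fintype K] [Algebra k K₀] [Algebra k K] [Algebra K₀ K] [IsScalarTower k K₀ K]
    (φ : integralClosure ℤ L →+* κ) (ι : K₀ →+* κ)

/-- the residue of the sum over the points -/
theorem resid_points {s : ℕ} {F : Fin s → Lau k} (hF : Sep F)
    {E : ℕ} (hE : Fintype.card K - 1 = E * (Fintype.card K₀ - 1))
    {τ : K₀ˣ →* Lˣ} (hτ : ∀ u : K₀ˣ, res φ ((τ u : Lˣ) : L) = ι u) {ψ : Fin s → K₀ˣ →* Lˣ}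
    {D : Fin s → ℕ} (hψ : ∀ j, ψ j = τ ^ D j) (hD : ∀ j, 0 < D j)
    (hD' : ∀ j, D j < Fintype.card K₀ - 1) :
    res φ (∑ᶠ P : Kˣ × Kˣ, ∏ j, ev (ψ j) (Algebra.norm K₀ (value (F j) P))) =
      ι (algebraMap k K₀ (ct F fun j => E * D j)) := by
  classical
  have hK : 1 < Fintype.card K := Fintype.one_lt_card
  have hK₀ : 1 < Fintype.card K₀ := Fintype.one_lt_card
  have hE0 : 0 < E := by
    rcases Nat.eq_zero_or_pos E with h | h
    · rw [h, zero_mul] at hE
      omega
    · exact h
  rw [finsum_eq_sum_of_fintype, res_sum φ _ _ (fun P _ => int_prod _ _ fun j _ => int_ev _ _)]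
  have h1 : ∀ P : Kˣ × Kˣ, res φ (∏ j, ev (ψ j) (Algebra.norm K₀ (value (F j) P))) =
      ι (∏ j, (Algebra.norm K₀ (value (F j) P)) ^ D j) := by
    intro P
    rw [res_prod φ _ _ (fun j _ => int_ev _ _), map_prod]
    refine Finset.prod_congr rfl fun j _ => ?_
    rw [hψ, res_ev φ ι hτ (hD j)]
  rw [Finset.sum_congr rfl fun P _ => h1 P, ← map_sum]
  congr 1
  apply (algebraMap K₀ K).injective
  rw [map_sum, ← IsScalarTower.algebraMap_apply k K₀ K]
  have hnorm : ∀ x : K, algebraMap K₀ K (Algebra.norm K₀ x) = x ^ E := by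
    intro x
    rw [FiniteField.algebraMap_norm_eq_pow (K := K₀) (K' := K) (x := x)]
    congr 1
    rw [Nat.card_eq_fintype_card, Nat.card_eq_fintype_card, hE,
      Nat.mul_div_cancel _ (by omega)]
  have hlt : ∀ j, E * D j < Fintype.card K - 1 := by
    intro j
    rw [hE]
    exact Nat.mul_lt_mul_of_pos_left (hD' j) hE0
  rw [← sum_points hF hlt]
  refine Finset.sum_congr rfl fun P _ => ?_
  rw [map_prod]
  refine Finset.prod_congr rfl fun j _ => ?_
  rw [map_pow, hnorm, ← pow_mul]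

end sums

end Pool.Agent.Helper41.NC
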